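import Pool.Agent.Helper31.CY.St2

set_option autoImplicit false

open Set Topology Filter
open Pool.Agent.Helper31.CY

namespace Pool.Agent.Helper21.CY

private lemma box_nhds (q : ℝ × ℝ) (ε : ℝ) (hε : 0 < ε) : box q ε ∈ 𝓝 q := by
  have hO : IsOpen (box q ε) := by
    have h1 : IsOpen {x : ℝ × ℝ | |x.1 - q.1| < ε} := isOpen_lt (by fun_prop) continuous_const
    have h2 : IsOpen {x : ℝ × ℝ | |x.2 - q.2| < ε} := isOpen_lt (by fun_prop) continuous_const
    exact h1.inter h2
  apply hO.mem_nhds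
  refine ⟨?_, ?_⟩
  · rw [sub_self, abs_zero]; exact hε
  · rw [sub_self, abs_zero]; exact hε

private lemma not_clos (R : Set (ℝ × ℝ)) (q : ℝ × ℝ) (ε : ℝ) (hε : 0 < ε)
    (h : ∀ x ∈ box q ε, x ∉ R) : q ∉ closure R := by
  intro hq
  rw [mem_closure_iff_nhds] at hq
  obtain ⟨x, hx1, hx2⟩ := hq _ (box_nhds q ε hε)
  exact h x hx1 hx2

/-- the rest of the network -/
theorem hKK (hHGT : StHGT) (hLVL : StLVL) (hRHO : StRHO) (hLOA : StLOA) (hLOB : StLOB)
    (hCVX : StCVX) : StKK := by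
  intro N r0 r1 h hN hS
  obtain ⟨hlv, -, -, -, -⟩ := hLVL N r0 r1 h hN
  obtain ⟨hR0, hRh, hR, -⟩ := hRHO N r0 r1 h hN hS
  obtain ⟨hA, hA0, hAh, hY0, hYh⟩ := hLOA N r0 r1 h hN hS
  have hB := hLOB N r0 r1 h hN hS
  obtain ⟨hC1, -, hC3⟩ := hCVX N r0 r1 h hN hS
  by_cases hE : ∀ x ∈ N, x.1 = rho N x.2
  · left
    have hnY : ∀ q ∈ N, ¬ YAt N q := by
      intro q hq hY
      have h1 := hE q hq
      obtain ⟨h2, h3⟩ := hlv q hq
      rcases h2.eq_or_lt with h2 | h2
      · have hq' : q = (r0, 0) := by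
          apply Prod.ext
          · rw [h1, ← h2, hR0]
          · exact h2.symm
        rw [hq'] at hY
        exact hY0 hY
      rcases h3.eq_or_lt with h3 | h3
      · have hq' : q = (r1, h) := by
          apply Prod.ext
          · rw [h1, h3, hRh]
          · exact h3
        rw [hq'] at hY
        exact hYh hY
      have hq' : q = (rho N q.2, q.2) := Prod.ext h1 rfl
      rw [hq'] at hY
      obtain ⟨m1, m2, ε, -, -, -, -, -, -, -, hl⟩ := hB q.2 ⟨h2, h3⟩ hY
      obtain ⟨x, -, hx, hx'⟩ := hl 1 one_pos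
      exact hx' (hE x hx)
    refine ⟨hE, hnY, ?_⟩
    intro s hs
    rcases (hA s hs).1 with h1 | h1
    · exact h1
    · exact absurd h1 (hnY _ (hR s ⟨hs.1.le, hs.2.le⟩).1)
  · right
    push Not at hE
    obtain ⟨x0, hx0, hx0'⟩ := hE
    set R : Set (ℝ × ℝ) := {x | x ∈ N ∧ x.1 ≠ rho N x.2} with hRd
    have hNc : IsClosed N := hN.cpt.isClosed
    have hKN : closure R ⊆ N := closure_minimal (fun x hx => hx.1) hNc
    have hKc : IsCompact (closure R) := hN.cpt.of_isClosed_subset isClosed_closure hKN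
    have hKn : (closure R).Nonempty := ⟨x0, subset_closure ⟨hx0, hx0'⟩⟩
    set X : Set (ℝ × ℝ) := {q | ∃ t ∈ Ioo 0 h, q = (rho N t, t) ∧ YAt N q} with hXd
    have hloc : ∀ q ∈ closure R, q ∉ X → q ≠ (r0, 0) ∧ q ≠ (r1, h) ∧
        ∃ ε : ℝ, 0 < ε ∧ ∀ x ∈ box q ε, x ∈ N → x ∈ closure R := by
      intro q hq hqX
      obtain ⟨h2, h3⟩ := hlv q (hKN hq)
      have hne : q.1 ≠ rho N q.2 := by
        intro h1
        rcases h2.eq_or_lt with h2 | h2
        · have hq' : q = (r0, 0) := by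
            apply Prod.ext
            · rw [h1, ← h2, hR0]
            · exact h2.symm
          obtain ⟨m, ε, hε, -, hb⟩ := hA0
          rw [hq'] at hq
          exact not_clos R (r0, 0) ε hε (fun x hx hxR => hxR.2 (hb x hx hxR.1)) hq
        rcases h3.eq_or_lt with h3 | h3
        · have hq' : q = (r1, h) := by
            apply Prod.ext
            · rw [h1, h3, hRh]
            · exact h3
          obtain ⟨m, ε, hε, -, hb⟩ := hAh
          rw [hq'] at hq
          exact not_clos R (r1, h) ε hε (fun x hx hxR => hxR.2 (hb x hx hxR.1)) hq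
        have hq' : q = (rho N q.2, q.2) := Prod.ext h1 rfl
        obtain ⟨hA1, hA2⟩ := hA q.2 ⟨h2, h3⟩
        rcases hA1 with hc | hc
        · obtain ⟨m, ε, hε, -, hb⟩ := hA2 hc
          rw [← hq'] at hb
          exact not_clos R q ε hε (fun x hx hxR => hxR.2 (hb x hx hxR.1)) hq
        · apply hqX
          refine ⟨q.2, ⟨h2, h3⟩, hq', ?_⟩
          rw [hq']
          exact hc
      refine ⟨?_, ?_, ?_⟩
      · intro hq'
        apply hne
        rw [hq']
        exact hR0.symm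
      · intro hq'
        apply hne
        rw [hq']
        exact hRh.symm
      · have hd : 0 < |q.1 - rho N q.2| := abs_pos.mpr (sub_ne_zero.mpr hne)
        have hcq := hC1 q.2 ⟨h2, h3⟩
        rw [Metric.continuousWithinAt_iff] at hcq
        obtain ⟨δ, hδ, hcδ⟩ := hcq (|q.1 - rho N q.2| / 2) (half_pos hd)
        refine ⟨min δ (|q.1 - rho N q.2| / 2), lt_min hδ (half_pos hd), ?_⟩
        intro x hx hxN
        apply subset_closure
        refine ⟨hxN, ?_⟩
        intro hx1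
        have e1 : |x.1 - q.1| < |q.1 - rho N q.2| / 2 := lt_of_lt_of_le hx.1 (min_le_right _ _)
        have e2 : |x.2 - q.2| < δ := lt_of_lt_of_le hx.2 (min_le_left _ _)
        have e3 := hcδ (show x.2 ∈ Icc 0 h from hlv x hxN)
          (by rw [Real.dist_eq]; exact e2)
        rw [Real.dist_eq, ← hx1] at e3
        have e4 : |q.1 - rho N q.2| ≤ |x.1 - q.1| + |x.1 - rho N q.2| := by
          have : q.1 - rho N q.2 = -(x.1 - q.1) + (x.1 - rho N q.2) := by ring
          rw [this]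
          calc |-(x.1 - q.1) + (x.1 - rho N q.2)| ≤ |-(x.1 - q.1)| + |x.1 - rho N q.2| :=
                abs_add_le _ _
            _ = |x.1 - q.1| + |x.1 - rho N q.2| := by rw [abs_neg]
        linarith
    obtain ⟨⟨qp, hqpK, ⟨tp, htp, hqp, hYp⟩, hmax, -⟩, ⟨qm, hqmK, ⟨tm, htm, hqm, hYm⟩, hmin, -⟩⟩ :=
      hHGT N r0 r1 h hN (closure R) X hKc hKn hKN hloc
    have hs3 : 0 < 1 / Real.sqrt 3 := by positivity
    have hpt : qp.2 = tp := by rw [hqp]
    have hmt : qm.2 = tm := by rw [hqm]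
    rw [hpt] at hmax
    rw [hmt] at hmin
    rw [hqp] at hYp
    rw [hqm] at hYm
    have hRle : ∀ x ∈ N, x.1 ≠ rho N x.2 → x.2 ≤ tp := fun x hx hx' =>
      hmax x (subset_closure ⟨hx, hx'⟩)
    have hRge : ∀ x ∈ N, x.1 ≠ rho N x.2 → tm ≤ x.2 := fun x hx hx' =>
      hmin x (subset_closure ⟨hx, hx'⟩)
    obtain ⟨m1, m2, ε, hε, hm, hl1, hl2, ha, hb, hc, hd⟩ := hB tp htp hYp
    obtain ⟨m1', m2', ε', hε', hm', hl1', hl2', ha', hb', hc', hd'⟩ := hB tm htm hYm
    have hbp : m1 ≤ -(1 / Real.sqrt 3) := by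
      rcases hb with hb | ⟨x, hx, hx', hx''⟩
      · exact hb
      · exact absurd (hRle x hx hx') (not_le.mpr hx'')
    have hap : 1 / Real.sqrt 3 ≤ m2' := by
      rcases ha' with ha | ⟨x, hx, hx', hx''⟩
      · exact ha
      · exact absurd (hRge x hx hx') (not_le.mpr hx'')
    have hle : tm ≤ tp := by
      have := hmax qm hqmK
      rw [hmt] at this
      exact this
    have heq : tm = tp := by
      rcases hle.eq_or_lt with hh | hh
      · exact hh
      · exfalso
        have := hC3 tm tp m2' m1 (min ε ε') htm.1 hh htp.2 (lt_min hε hε')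
          (fun s hs => hl2' s ⟨hs.1, lt_of_lt_of_le hs.2 (by linarith [min_le_right ε ε'])⟩)
          (fun s hs => hl1 s ⟨lt_of_le_of_lt (by linarith [min_le_left ε ε']) hs.1, hs.2⟩)
        linarith
    have hall : ∀ x ∈ N, x.1 ≠ rho N x.2 → x.2 = tp := by
      intro x hx hx'
      apply le_antisymm (hRle x hx hx')
      rw [← heq]
      exact hRge x hx hx'
    refine ⟨tp, htp, ?_, hall, ?_, ?_⟩
    · intro s hs hst
      rcases (hA s hs).1 with h1 | h1
      · exact h1
      · exfalso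
        obtain ⟨-, -, -, -, -, -, -, -, -, -, hl⟩ := hB s hs h1
        obtain ⟨x, hxb, hx, hx'⟩ := hl |s - tp| (abs_pos.mpr (sub_ne_zero.mpr hst))
        have h4 := hxb.2
        rw [hall x hx hx'] at h4
        rw [abs_sub_comm] at h4
        exact lt_irrefl _ h4
    · rcases hc with ⟨-, -, y, hy⟩ | ⟨x, hx, hx', hx''⟩
      · exact ⟨y, hy⟩
      · exact absurd (hall x hx hx') hx''
    · rcases hc with ⟨e1, e2, -⟩ | ⟨x, hx, hx', hx''⟩
      · rw [e1] at hl1
        rw [e2] at hl2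
        exact ⟨ε, hε, hl1, hl2⟩
      · exact absurd (hall x hx hx') hx''

end Pool.Agent.Helper21.CY
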