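import Pool.Agent.Helper31.CY.St1

set_option autoImplicit false

open Set Topology Filter
open Pool.Agent.Helper31.CY

namespace Pool.Agent.Helper21.CY

private lemma pt0 (a b c : ℝ) : pt a b c 0 = a := by simp [pt]
private lemma pt1 (a b c : ℝ) : pt a b c 1 = b := by simp [pt]
private lemma pt2 (a b c : ℝ) : pt a b c 2 = c := by simp [pt]

private lemma ext3 (x y : E3) (h0 : x 0 = y 0) (h1 : x 1 = y 1) (h2 : x 2 = y 2) : x = y := by
  ext i
  fin_cases i
  · exact h0
  · exact h1
  · exact h2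

private lemma rot_neg (θ : ℝ) (x : E3) : rot (-θ) (rot θ x) = x := by
  have h := Real.sin_sq_add_cos_sq θ
  apply ext3
  · simp only [rot, pt0, pt1, Real.cos_neg, Real.sin_neg]
    linear_combination (x 0) * h
  · simp only [rot, pt0, pt1, Real.cos_neg, Real.sin_neg]
    linear_combination (x 1) * h
  · simp only [rot, pt2]

private lemma ex_rot (x : E3) : ∃ θ : ℝ, rot θ x = pt (rad x) 0 (x 2) := by
  set z : ℂ := ⟨x 0, x 1⟩ with hz
  refine ⟨-Complex.arg z, ?_⟩
  have hn : ‖z‖ = rad x := by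
    rw [rad, Complex.norm_def, Complex.normSq_apply]
    congr 1
    simp only [hz]
    ring
  have h1 : ‖z‖ * Real.cos (Complex.arg z) = x 0 := by
    rw [Complex.norm_mul_cos_arg]
  have h2 : ‖z‖ * Real.sin (Complex.arg z) = x 1 := by
    rw [Complex.norm_mul_sin_arg]
  have h := Real.sin_sq_add_cos_sq (Complex.arg z)
  apply ext3
  · simp only [rot, pt0, Real.cos_neg, Real.sin_neg]
    rw [← h1, ← h2, ← hn]
    linear_combination ‖z‖ * h
  · simp only [rot, pt1, Real.cos_neg, Real.sin_neg]
    rw [← h1, ← h2]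
    ring
  · simp only [rot, pt2]

/-- the meridian section -/
theorem hMER : StMER := by
  intro S hS
  refine ⟨?_, ?_, ex_rot⟩
  · intro hc
    have hE : Mer S = (fun x : E3 => (x 0, x 2)) '' (S ∩ {x : E3 | 0 ≤ x 0 ∧ x 1 = 0}) := by
      ext q
      constructor
      · intro hq
        refine ⟨pt q.1 0 q.2, ⟨hq.2, ?_⟩, ?_⟩
        · show 0 ≤ pt q.1 0 q.2 0 ∧ pt q.1 0 q.2 1 = 0
          rw [pt0, pt1]
          exact ⟨hq.1, rfl⟩
        · show (pt q.1 0 q.2 0, pt q.1 0 q.2 2) = q
          rw [pt0, pt2]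
      · rintro ⟨x, ⟨hx, hx0, hx1⟩, rfl⟩
        refine ⟨hx0, ?_⟩
        have he : pt (x 0) 0 (x 2) = x := by
          apply ext3
          · rw [pt0]
          · rw [pt1, hx1]
          · rw [pt2]
        show pt (x 0) 0 (x 2) ∈ S
        rw [he]
        exact hx
    rw [hE]
    apply IsCompact.image
    · apply hc.inter_right
      have hA : IsClosed {x : E3 | 0 ≤ x 0} := isClosed_le continuous_const (by fun_prop)
      have hB : IsClosed {x : E3 | x 1 = 0} := isClosed_eq (by fun_prop) continuous_const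
      exact hA.inter hB
    · fun_prop
  · intro x
    obtain ⟨θ, hθ⟩ := ex_rot x
    constructor
    · intro hx
      refine ⟨Real.sqrt_nonneg _, ?_⟩
      show pt (rad x) 0 (x 2) ∈ S
      rw [← hθ]
      exact hS θ x hx
    · intro hx
      have h1 : pt (rad x) 0 (x 2) ∈ S := hx.2
      rw [← hθ] at h1
      have h2 := hS (-θ) _ h1
      rwa [rot_neg] at h2

end Pool.Agent.Helper21.CY
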